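import Pool.Agent.Helper16.Cusp.Loc

/-! Packet C5: the curves of the tower are reduced. -/

namespace Pool.Agent.Helper16.Cusp

open MvPolynomial

/-- restriction to the line `(1,1,t)` -/
noncomputable def rho : R →ₐ[ℂ] Polynomial ℂ := aeval ![1, 1, Polynomial.X]

theorem rho_monomial (d : Fin 3 →₀ ℕ) (c : ℂ) :
    rho (monomial d c) = Polynomial.C c * Polynomial.X ^ d 2 := by
  unfold rho
  rw [aeval_monomial, Finsupp.prod_fintype _ _ (fun i => by simp), Fin.prod_univ_three]
  simp

theorem rho_eval (P : R) (t : ℂ) : Polynomial.eval t (rho P) = eval ![1, 1, t] P := by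
  unfold rho
  induction P using MvPolynomial.induction_on with
  | C a => simp
  | add p q hp hq => rw [map_add, Polynomial.eval_add, hp, hq, map_add]
  | mul_X p i hp =>
    rw [map_mul, Polynomial.eval_mul, hp, map_mul, aeval_X, eval_X]
    congr 1
    fin_cases i <;> simp

theorem natDegree_rho_le (P : R) : (rho P).natDegree ≤ P.totalDegree := by
  conv_lhs => rw [P.as_sum]
  rw [map_sum]
  refine Polynomial.natDegree_sum_le_of_forall_le _ _ fun d hd => ?_
  rw [rho_monomial]
  refine (Polynomial.natDegree_C_mul_X_pow_le _ _).trans ?_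
  refine le_trans ?_ (le_totalDegree hd)
  rw [Finsupp.sum_fintype _ _ (fun _ => rfl), Fin.sum_univ_three]
  omega

theorem coeff_rho {F : R} {D : ℕ} (hF : F.IsHomogeneous D) :
    (rho F).coeff D = eval ![0, 0, 1] F := by
  conv_lhs => rw [F.as_sum]
  conv_rhs => rw [F.as_sum]
  rw [map_sum, map_sum, Polynomial.finsetSum_coeff]
  refine Finset.sum_congr rfl fun d hd => ?_
  rw [rho_monomial, Polynomial.coeff_C_mul_X_pow, eval_monomial,
    Finsupp.prod_fintype _ _ (fun i => by simp), Fin.prod_univ_three]
  have h1 : d 0 + d 1 + d 2 = D := by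
    have := hF (mem_support_iff.1 hd)
    rw [← this, Finsupp.weight_apply, Finsupp.sum_fintype _ _ (fun _ => by simp),
      Fin.sum_univ_three]
    simp
  by_cases h2 : d 2 = D
  · have h3 : d 0 = 0 := by omega
    have h4 : d 1 = 0 := by omega
    rw [if_pos h2.symm, h3, h4]
    simp
  · rw [if_neg (fun h => h2 h.symm)]
    have h3 : d 0 ≠ 0 ∨ d 1 ≠ 0 := by omega
    rcases h3 with h3 | h3
    · simp [h3]
    · simp [h3]

theorem Lev.squarefree {F : R} {D κ T : ℕ} {Q : V → Prop} (hF : Lev F D κ T Q) :
    Squarefree F := by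
  have h001 : eval ![0, 0, 1] F ≠ 0 := by
    intro h
    have h1 := hF.smooth ![0, 0, 1] (by
      intro h2
      have := congrFun h2 2
      simp at this) rfl h
    exact h1.1 rfl
  have hF0 : F ≠ 0 := by
    rintro rfl
    simp at h001
  have hD : F.totalDegree = D := hF.homog.totalDegree hF0
  have hdeg : D ≤ (rho F).natDegree := by
    apply Polynomial.le_natDegree_of_ne_zero
    rw [coeff_rho hF.homog]
    exact h001
  intro G hG
  obtain ⟨H, hH⟩ := hG
  have hG0 : G ≠ 0 := by
    rintro rfl
    apply hF0
    rw [hH]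
    simp
  have hH0 : H ≠ 0 := by
    rintro rfl
    apply hF0
    rw [hH]
    simp
  have h2 : F.totalDegree = G.totalDegree + G.totalDegree + H.totalDegree := by
    rw [hH, totalDegree_mul_of_isDomain (mul_ne_zero hG0 hG0) hH0,
      totalDegree_mul_of_isDomain hG0 hG0]
  have h3 : (rho F).natDegree ≤ (rho G).natDegree + (rho G).natDegree + (rho H).natDegree := by
    rw [hH, map_mul, map_mul]
    exact Polynomial.natDegree_mul_le.trans (Nat.add_le_add_right Polynomial.natDegree_mul_le _)
  have h4 := natDegree_rho_le G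
  have h5 := natDegree_rho_le H
  have h6 : (rho G).natDegree = G.totalDegree := by omega
  by_contra hunit
  have h7 : G.totalDegree ≠ 0 := by
    intro h
    rw [totalDegree_eq_zero_iff_eq_C] at h
    apply hunit
    rw [h]
    refine IsUnit.map C (isUnit_iff_ne_zero.2 ?_)
    intro hc
    rw [hc, map_zero] at h
    exact hG0 h
  obtain ⟨t, ht⟩ := IsAlgClosed.exists_root (rho G) (by
    intro h
    apply h7
    rw [← h6]
    exact Polynomial.natDegree_eq_of_degree_eq_some h)
  have h8 : eval ![1, 1, t] G = 0 := by rw [← rho_eval]; exact ht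
  obtain ⟨-, -, i, hi⟩ := hF.smooth ![1, 1, t] (by
    intro h
    have := congrFun h 0
    simp at this) rfl (by rw [hH, map_mul, map_mul, h8]; simp)
  apply hi
  rw [hH, Derivation.leibniz, Derivation.leibniz]
  simp [h8]

end Pool.Agent.Helper16.Cusp
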