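import Pool.Agent.Helper16.Cusp.Loc

/-! Packet C1: the cusp normal form gives an ordinary cusp. -/

namespace Pool.Agent.Helper16.Cusp

open MvPolynomial

section deriv
variable {a b α β γ : R} {v : V}

theorem first_a (ha : eval v a = 0) (i : Fin 3) : eval v (pderiv i (a ^ 2 * α)) = 0 := by
  rw [pow_two]
  simp only [Derivation.leibniz, smul_eq_mul, map_add, map_mul, ha]
  ring

theorem first_ab (ha : eval v a = 0) (hb : eval v b = 0) (i : Fin 3) :
    eval v (pderiv i (a * b ^ 2 * β)) = 0 := by
  rw [pow_two]
  simp only [Derivation.leibniz, smul_eq_mul, map_add, map_mul, ha, hb]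
  ring

theorem first_b (hb : eval v b = 0) (i : Fin 3) : eval v (pderiv i (b ^ 3 * γ)) = 0 := by
  rw [show b ^ 3 = b * b * b by ring]
  simp only [Derivation.leibniz, smul_eq_mul, map_add, map_mul, hb]
  ring

theorem second_a (ha : eval v a = 0) (i j : Fin 3) :
    eval v (pderiv i (pderiv j (a ^ 2 * α))) =
      2 * eval v α * eval v (pderiv i a) * eval v (pderiv j a) := by
  rw [pow_two]
  simp only [Derivation.leibniz, smul_eq_mul, map_add, map_mul, ha]
  ring

theorem second_ab (ha : eval v a = 0) (hb : eval v b = 0) (i j : Fin 3) :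
    eval v (pderiv i (pderiv j (a * b ^ 2 * β))) = 0 := by
  rw [pow_two]
  simp only [Derivation.leibniz, smul_eq_mul, map_add, map_mul, ha, hb]
  ring

theorem second_b (hb : eval v b = 0) (i j : Fin 3) :
    eval v (pderiv i (pderiv j (b ^ 3 * γ))) = 0 := by
  rw [show b ^ 3 = b * b * b by ring]
  simp only [Derivation.leibniz, smul_eq_mul, map_add, map_mul, hb]
  ring

theorem third_a (ha : eval v a = 0) (i j k : Fin 3) :
    eval v (pderiv i (pderiv j (pderiv k (a ^ 2 * α)))) =
      2 * eval v α * (eval v (pderiv i (pderiv j a)) * eval v (pderiv k a) +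
        eval v (pderiv i (pderiv k a)) * eval v (pderiv j a) +
        eval v (pderiv j (pderiv k a)) * eval v (pderiv i a)) +
      2 * (eval v (pderiv i a) * eval v (pderiv j a) * eval v (pderiv k α) +
        eval v (pderiv i a) * eval v (pderiv k a) * eval v (pderiv j α) +
        eval v (pderiv j a) * eval v (pderiv k a) * eval v (pderiv i α)) := by
  rw [pow_two]
  simp only [Derivation.leibniz, smul_eq_mul, map_add, map_mul, ha]
  ring

theorem third_ab (ha : eval v a = 0) (hb : eval v b = 0) (i j k : Fin 3) :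
    eval v (pderiv i (pderiv j (pderiv k (a * b ^ 2 * β)))) =
      2 * eval v β * (eval v (pderiv i a) * eval v (pderiv j b) * eval v (pderiv k b) +
        eval v (pderiv j a) * eval v (pderiv i b) * eval v (pderiv k b) +
        eval v (pderiv k a) * eval v (pderiv i b) * eval v (pderiv j b)) := by
  rw [pow_two]
  simp only [Derivation.leibniz, smul_eq_mul, map_add, map_mul, ha, hb]
  ring

theorem third_b (hb : eval v b = 0) (i j k : Fin 3) :
    eval v (pderiv i (pderiv j (pderiv k (b ^ 3 * γ)))) =
      6 * eval v γ * (eval v (pderiv i b) * eval v (pderiv j b) * eval v (pderiv k b)) := by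
  rw [show b ^ 3 = b * b * b by ring]
  simp only [Derivation.leibniz, smul_eq_mul, map_add, map_mul, hb]
  ring

end deriv

theorem rank_eq_one_of {g : Fin 3 → ℂ} {c : ℂ} (hc : c ≠ 0) (hg : ∃ i, g i ≠ 0)
    {M : Matrix (Fin 3) (Fin 3) ℂ} (hM : ∀ i j, M i j = c * g i * g j) : M.rank = 1 := by
  have h1 : M = Matrix.vecMulVec (fun i => c * g i) g := by
    ext i j
    rw [hM, Matrix.vecMulVec_apply]
  have h2 : M.rank ≤ 1 := by
    rw [h1]
    exact Matrix.rank_vecMulVec_le _ _
  have h3 : M.rank ≠ 0 := by
    intro h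
    obtain ⟨i, hi⟩ := hg
    have h4 : Module.finrank ℂ (LinearMap.range M.mulVecLin) = 0 := h
    have h5 : LinearMap.range M.mulVecLin = ⊥ := Submodule.finrank_eq_zero.1 h4
    have h6 : M.mulVecLin = 0 := LinearMap.range_eq_bot.1 h5
    have h7 := congrFun (LinearMap.congr_fun h6 (Pi.single i 1)) i
    rw [Matrix.mulVecLin_apply, Matrix.mulVec_single_one] at h7
    have h8 : M i i = 0 := h7
    rw [hM] at h8
    exact mul_ne_zero (mul_ne_zero hc hi) hi h8
  omega

theorem CuspT.isCuspVec {F : R} {v : V} (h : CuspT F v) : IsCuspVec F v := by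
  obtain ⟨a, b, α, β, γ, hF, ha, hb, hα, hγ, ⟨u, hu1, hu2⟩, w, hw⟩ := h
  have hess_eq : ∀ i j, hess F v i j =
      (2 * eval v α) * eval v (pderiv i a) * eval v (pderiv j a) := by
    intro i j
    unfold hess
    rw [Matrix.of_apply, hF]
    simp only [map_add]
    rw [second_a ha, second_ab ha hb, second_b hb]
    ring
  refine ⟨?_, ?_, ?_, u, ?_, ?_⟩
  · rw [hF]
    simp [ha, hb]
  · intro i
    rw [hF]
    simp only [map_add]
    rw [first_a ha, first_ab ha hb, first_b hb]
    ring
  · refine rank_eq_one_of (g := fun i => eval v (pderiv i a)) (c := 2 * eval v α)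
      (mul_ne_zero two_ne_zero hα) ?_ hess_eq
    by_contra hc
    push Not at hc
    apply hw
    unfold dd
    exact Finset.sum_eq_zero fun i _ => by rw [hc i, mul_zero]
  · funext i
    unfold Matrix.mulVec dotProduct
    simp only [hess_eq]
    have : ∑ j : Fin 3, 2 * eval v α * eval v (pderiv i a) * eval v (pderiv j a) * u j =
        2 * eval v α * eval v (pderiv i a) * dd a v u := by
      unfold dd
      rw [Finset.mul_sum]
      exact Finset.sum_congr rfl fun j _ => by ring
    rw [this, hu1, mul_zero]
    rfl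
  · have key : cubic F v u = 6 * eval v γ * dd b v u ^ 3 := by
      have hT : ∀ i j k : Fin 3, eval v (pderiv i (pderiv j (pderiv k F))) =
          2 * eval v α * (eval v (pderiv i (pderiv j a)) * eval v (pderiv k a) +
            eval v (pderiv i (pderiv k a)) * eval v (pderiv j a) +
            eval v (pderiv j (pderiv k a)) * eval v (pderiv i a)) +
          2 * (eval v (pderiv i a) * eval v (pderiv j a) * eval v (pderiv k α) +
            eval v (pderiv i a) * eval v (pderiv k a) * eval v (pderiv j α) +
            eval v (pderiv j a) * eval v (pderiv k a) * eval v (pderiv i α)) +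
          2 * eval v β * (eval v (pderiv i a) * eval v (pderiv j b) * eval v (pderiv k b) +
            eval v (pderiv j a) * eval v (pderiv i b) * eval v (pderiv k b) +
            eval v (pderiv k a) * eval v (pderiv i b) * eval v (pderiv j b)) +
          6 * eval v γ * (eval v (pderiv i b) * eval v (pderiv j b) * eval v (pderiv k b)) := by
        intro i j k
        rw [hF]
        simp only [map_add]
        rw [third_a ha, third_ab ha hb, third_b hb]
      unfold cubic
      simp only [hT]
      unfold dd at hu1 ⊢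
      simp only [Fin.sum_univ_three] at hu1 ⊢
      generalize eval v (pderiv 0 a) = A0 at *
      generalize eval v (pderiv 1 a) = A1 at *
      generalize eval v (pderiv 2 a) = A2 at *
      generalize eval v (pderiv 0 b) = B0 at *
      generalize eval v (pderiv 1 b) = B1 at *
      generalize eval v (pderiv 2 b) = B2 at *
      generalize eval v (pderiv 0 α) = C0 at *
      generalize eval v (pderiv 1 α) = C1 at *
      generalize eval v (pderiv 2 α) = C2 at *
      generalize eval v (pderiv 0 (pderiv 0 a)) = A00 at *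
      generalize eval v (pderiv 0 (pderiv 1 a)) = A01 at *
      generalize eval v (pderiv 0 (pderiv 2 a)) = A02 at *
      generalize eval v (pderiv 1 (pderiv 0 a)) = A10 at *
      generalize eval v (pderiv 1 (pderiv 1 a)) = A11 at *
      generalize eval v (pderiv 1 (pderiv 2 a)) = A12 at *
      generalize eval v (pderiv 2 (pderiv 0 a)) = A20 at *
      generalize eval v (pderiv 2 (pderiv 1 a)) = A21 at *
      generalize eval v (pderiv 2 (pderiv 2 a)) = A22 at *
      generalize eval v α = al at *
      generalize eval v β = be at *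
      generalize eval v γ = ga at *
      generalize u 0 = u0 at *
      generalize u 1 = u1 at *
      generalize u 2 = u2 at *
      linear_combination (2 * al * 3 * (u0 * u0 * A00 + u0 * u1 * A01 + u0 * u2 * A02 +
        u1 * u0 * A10 + u1 * u1 * A11 + u1 * u2 * A12 + u2 * u0 * A20 + u2 * u1 * A21 +
        u2 * u2 * A22) + 6 * (u0 * A0 + u1 * A1 + u2 * A2) * (u0 * C0 + u1 * C1 + u2 * C2) +
        6 * be * (u0 * B0 + u1 * B1 + u2 * B2) ^ 2) * hu1
    rw [key]
    exact mul_ne_zero (mul_ne_zero (by norm_num) hγ) (pow_ne_zero 3 hu2)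

/-! ### scaling -/

theorem eval_smul_homog {G : R} {n : ℕ} (hG : G.IsHomogeneous n) (c : ℂ) (v : V) :
    eval (c • v) G = c ^ n * eval v G := by
  conv_lhs => rw [G.as_sum]
  conv_rhs => rw [G.as_sum]
  rw [map_sum, map_sum, Finset.mul_sum]
  refine Finset.sum_congr rfl fun d hd => ?_
  rw [eval_monomial, eval_monomial, Finsupp.prod_fintype _ _ (fun i => by simp),
    Finsupp.prod_fintype _ _ (fun i => by simp), Fin.prod_univ_three, Fin.prod_univ_three]
  have h1 : d 0 + d 1 + d 2 = n := by
    have := hG (mem_support_iff.1 hd)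
    rw [← this, Finsupp.weight_apply, Finsupp.sum_fintype _ _ (fun _ => by simp),
      Fin.sum_univ_three]
    simp
  rw [← h1]
  simp only [Pi.smul_apply, smul_eq_mul]
  ring

theorem IsCuspVec.smul {F : R} {D : ℕ} (hF : F.IsHomogeneous D) {v : V} (h : IsCuspVec F v)
    {c : ℂ} (hc : c ≠ 0) : IsCuspVec F (c • v) := by
  obtain ⟨h0, h1, h2, u, h3, h4⟩ := h
  have hh : hess F (c • v) = c ^ (D - 1 - 1) • hess F v := by
    ext i j
    unfold hess
    rw [Matrix.smul_apply, Matrix.of_apply, Matrix.of_apply,
      eval_smul_homog (hF.pderiv.pderiv) c v, smul_eq_mul]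
  refine ⟨?_, ?_, ?_, u, ?_, ?_⟩
  · rw [eval_smul_homog hF, h0, mul_zero]
  · intro i
    rw [eval_smul_homog hF.pderiv, h1, mul_zero]
  · rw [hh, Matrix.rank_smul_of_mem_nonZeroDivisors _
      (mem_nonZeroDivisors_of_ne_zero (pow_ne_zero _ hc)), h2]
  · rw [hh, Matrix.smul_mulVec, h3, smul_zero]
  · have : cubic F (c • v) u = c ^ (D - 1 - 1 - 1) * cubic F v u := by
      unfold cubic
      simp only [Finset.mul_sum]
      refine Finset.sum_congr rfl fun i _ => Finset.sum_congr rfl fun j _ =>
        Finset.sum_congr rfl fun k _ => ?_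
      rw [eval_smul_homog (hF.pderiv.pderiv.pderiv) c v]
      ring
    rw [this]
    exact mul_ne_zero (pow_ne_zero _ hc) h4

theorem exists_finset {F : R} {D κ : ℕ} (hF : F.IsHomogeneous D) (c : Fin κ → V)
    (hc : ProjInj c) (h : ∀ i, CuspT F (c i) ∧ c i ≠ 0) :
    ∃ S : Finset (Projectivization ℂ (Fin 3 → ℂ)), S.card = κ ∧
      ∀ p ∈ S, IsOrdinaryCusp F p := by
  classical
  refine ⟨Finset.univ.image fun i => Projectivization.mk ℂ (c i) (h i).2, ?_, ?_⟩
  · rw [Finset.card_image_of_injective, Finset.card_univ, Fintype.card_fin]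
    intro i j hij
    obtain ⟨t, ht⟩ := (Projectivization.mk_eq_mk_iff' ℂ _ _ (h i).2 (h j).2).1 hij
    exact hc i j t ht.symm
  · intro p hp
    obtain ⟨i, -, rfl⟩ := Finset.mem_image.1 hp
    obtain ⟨t, ht⟩ := Projectivization.exists_smul_eq_mk_rep ℂ (c i) (h i).2
    unfold IsOrdinaryCusp
    rw [← ht]
    exact IsCuspVec.smul hF (h i).1.isCuspVec t.ne_zero

end Pool.Agent.Helper16.Cusp
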