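import Pool.Agent.Helper16.Cusp.Loc

/-! Packet C2: pull back of the local types. -/

namespace Pool.Agent.Helper16.Cusp

open MvPolynomial

theorem om_pow : om ^ 3 = 1 := by
  have := (Complex.isPrimitiveRoot_exp 3 (by norm_num)).pow_eq_one
  unfold om
  exact_mod_cast this

theorem om_ne_one : om ≠ 1 := by
  have := (Complex.isPrimitiveRoot_exp 3 (by norm_num)).ne_one (by norm_num)
  unfold om
  exact_mod_cast this

theorem om_sum : 1 + om + om ^ 2 = 0 := by
  have h1 := om_pow
  have h2 : (om - 1) * (1 + om + om ^ 2) = 0 := by linear_combination h1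
  rcases mul_eq_zero.1 h2 with h | h
  · exact absurd (sub_eq_zero.1 h) om_ne_one
  · exact h

theorem om_ne_zero : om ≠ 0 := by
  intro h
  have := om_pow
  rw [h] at this
  norm_num at this

theorem eval_pull (lam mu : ℂ) (F : R) (v : V) :
    eval v (pull lam mu F) = eval (phi lam mu v) F := by
  unfold pull phi
  induction F using MvPolynomial.induction_on with
  | C a => simp
  | add p q hp hq => rw [map_add, map_add, map_add, hp, hq]
  | mul_X p i hp => rw [map_mul, map_mul, map_mul, hp, aeval_X, eval_X, map_pow]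

theorem pull_add (lam mu : ℂ) (F G : R) : pull lam mu (F + G) = pull lam mu F + pull lam mu G :=
  map_add _ _ _

theorem pull_mul (lam mu : ℂ) (F G : R) : pull lam mu (F * G) = pull lam mu F * pull lam mu G :=
  map_mul _ _ _

theorem pull_pow (lam mu : ℂ) (F : R) (n : ℕ) : pull lam mu (F ^ n) = pull lam mu F ^ n :=
  map_pow _ _ _

theorem pull_X (lam mu : ℂ) (i : Fin 3) : pull lam mu (X i) = lin lam mu i ^ 3 :=
  aeval_X _ _

theorem lin_homog (lam mu : ℂ) (i : Fin 3) : (lin lam mu i).IsHomogeneous 1 := by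
  have hX : ∀ j : Fin 3, (X j : R).IsHomogeneous 1 := fun j => isHomogeneous_X _ _
  have hC : ∀ (c : ℂ) (j : Fin 3), (C c * X j : R).IsHomogeneous 1 := fun c j => by
    have := (isHomogeneous_C (Fin 3) c).mul (isHomogeneous_X ℂ j)
    simpa using this
  fin_cases i
  · exact (hX 0).add (hC _ 1)
  · exact (hC _ 0).add (hC _ 1)
  · exact ((hX 2).add (hC _ 0)).add (hC _ 1)

theorem pull_homog {lam mu : ℂ} {F : R} {D : ℕ} (hF : F.IsHomogeneous D) :
    (pull lam mu F).IsHomogeneous (3 * D) := by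
  refine hF.aeval (fun i => lin lam mu i ^ 3) fun i => ?_
  have := (lin_homog lam mu i).pow 3
  simpa using this

theorem pull_diff (lam mu : ℂ) :
    pull lam mu (X 0 - X 1) = C (3 * (om - om ^ 2)) * (X 0 * X 1 * (X 0 - X 1)) := by
  have h : pull lam mu (X 0 - X 1) = lin lam mu 0 ^ 3 - lin lam mu 1 ^ 3 := by
    unfold pull
    rw [map_sub, aeval_X, aeval_X]
  rw [h]
  have h3 : (C om : R) ^ 3 = 1 := by rw [← map_pow, om_pow, map_one]
  have e0 : lin lam mu 0 = X 0 + C om * X 1 := rfl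
  have e1 : lin lam mu 1 = C (om ^ 2) * X 0 + C om * X 1 := rfl
  rw [e0, e1]
  simp only [map_mul, map_sub, map_pow, map_ofNat]
  linear_combination (-(X 0 ^ 3) * (1 + (C om : R) ^ 3) - 3 * (C om : R) ^ 2 * X 0 ^ 2 * X 1
    - 3 * (C om : R) * X 0 * X 1 ^ 2) * h3

theorem eval_lin0 (lam mu : ℂ) (v : V) : eval v (lin lam mu 0) = v 0 + om * v 1 := by
  simp [lin]

theorem eval_lin1 (lam mu : ℂ) (v : V) : eval v (lin lam mu 1) = om ^ 2 * v 0 + om * v 1 := by
  simp [lin]

theorem eval_lin2 (lam mu : ℂ) (v : V) : eval v (lin lam mu 2) = v 2 + lam * v 0 + mu * v 1 := by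
  simp [lin]

theorem one_sub_om_sq : 1 - om ^ 2 ≠ 0 := by
  intro h
  have h2 : om ^ 2 = 1 := (sub_eq_zero.1 h).symm
  have h3 := om_pow
  apply om_ne_one
  linear_combination h3 - om * h2

theorem exists_lin (lam mu : ℂ) (w : V) : ∃ v : V, ∀ i, eval v (lin lam mu i) = w i := by
  have h1 := one_sub_om_sq
  have h2 := om_ne_zero
  set a := (w 0 - w 1) / (1 - om ^ 2) with ha
  set b := (w 0 - a) / om with hb
  refine ⟨![a, b, w 2 - lam * a - mu * b], fun i => ?_⟩
  have hb' : om * b = w 0 - a := by rw [hb]; field_simp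
  have ha' : (1 - om ^ 2) * a = w 0 - w 1 := by rw [ha]; field_simp
  fin_cases i
  · show eval _ (lin lam mu 0) = w 0
    rw [eval_lin0]
    simp only [Matrix.cons_val_zero, Matrix.cons_val_one]
    linear_combination hb'
  · show eval _ (lin lam mu 1) = w 1
    rw [eval_lin1]
    simp only [Matrix.cons_val_zero, Matrix.cons_val_one]
    linear_combination hb' - ha'
  · show eval _ (lin lam mu 2) = w 2
    rw [eval_lin2]
    simp only [Matrix.cons_val_zero, Matrix.cons_val_one, Matrix.cons_val]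
    ring

theorem lin_inj (lam mu : ℂ) {v v' : V}
    (h : ∀ i, eval v (lin lam mu i) = eval v' (lin lam mu i)) : v = v' := by
  have h0 := h 0
  have h1 := h 1
  have h2 := h 2
  rw [eval_lin0, eval_lin0] at h0
  rw [eval_lin1, eval_lin1] at h1
  rw [eval_lin2, eval_lin2] at h2
  have e0 : v 0 = v' 0 := by
    apply mul_left_cancel₀ one_sub_om_sq
    linear_combination h0 - h1
  have e1 : v 1 = v' 1 := by
    apply mul_left_cancel₀ om_ne_zero
    rw [e0] at h0
    linear_combination h0
  funext i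
  fin_cases i
  · exact e0
  · exact e1
  · rw [e0, e1] at h2
    show v 2 = v' 2
    linear_combination h2

/-! ### the chain rule -/

theorem pderiv_pull (lam mu : ℂ) (a : R) (i : Fin 3) :
    pderiv i (pull lam mu a) =
      ∑ j : Fin 3, pull lam mu (pderiv j a) * (3 * lin lam mu j ^ 2 * pderiv i (lin lam mu j)) := by
  induction a using MvPolynomial.induction_on with
  | C c =>
    have : pull lam mu (C c) = C c := by unfold pull; simp
    rw [this, pderiv_C]
    symm
    refine Finset.sum_eq_zero fun j _ => ?_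
    rw [pderiv_C]
    have : pull lam mu 0 = 0 := by unfold pull; simp
    rw [this, zero_mul]
  | add p q hp hq =>
    rw [pull_add, map_add, hp, hq, ← Finset.sum_add_distrib]
    refine Finset.sum_congr rfl fun j _ => ?_
    rw [map_add, pull_add]
    ring
  | mul_X p k hp =>
    rw [pull_mul, Derivation.leibniz, hp, pull_X, Derivation.leibniz_pow]
    have h1 : ∀ j : Fin 3, pull lam mu (pderiv j (p * X k)) =
        pull lam mu (pderiv j p) * lin lam mu k ^ 3 + (if j = k then pull lam mu p else 0) := by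
      intro j
      rw [Derivation.leibniz, pull_add, smul_eq_mul, smul_eq_mul, pull_mul, pull_mul, pull_X]
      have : pull lam mu (pderiv j (X k)) = if j = k then 1 else 0 := by
        rw [pderiv_X]
        by_cases hjk : j = k
        · subst hjk
          simp [pull]
        · rw [Pi.single_eq_of_ne (Ne.symm hjk)]
          simp [pull, hjk]
      rw [this]
      by_cases hjk : j = k
      · simp [hjk]
        ring
      · simp [hjk]
        ring
    simp only [h1, add_mul, Finset.sum_add_distrib, ite_mul, zero_mul, Finset.sum_ite_eq',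
      Finset.mem_univ, if_true, smul_eq_mul, nsmul_eq_mul]
    rw [Finset.mul_sum]
    have h2 : ∀ j : Fin 3, pull lam mu (pderiv j p) * lin lam mu k ^ 3 *
        (3 * lin lam mu j ^ 2 * pderiv i (lin lam mu j)) =
        lin lam mu k ^ 3 * (pull lam mu (pderiv j p) *
          (3 * lin lam mu j ^ 2 * pderiv i (lin lam mu j))) := by
      intro j
      ring
    simp only [h2]
    push_cast
    ring

theorem dd_lin (lam mu : ℂ) (v u : V) (j : Fin 3) :
    dd (lin lam mu j) v u = eval u (lin lam mu j) := by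
  unfold dd
  rw [Fin.sum_univ_three]
  fin_cases j <;> simp [lin, Derivation.leibniz, pderiv_X] <;> ring

theorem dd_pull (lam mu : ℂ) (a : R) (v u : V) :
    dd (pull lam mu a) v u =
      dd a (phi lam mu v) (fun j => 3 * eval v (lin lam mu j) ^ 2 * eval u (lin lam mu j)) := by
  have h1 : dd (pull lam mu a) v u = ∑ j : Fin 3, eval (phi lam mu v) (pderiv j a) *
      (3 * eval v (lin lam mu j) ^ 2 * dd (lin lam mu j) v u) := by
    unfold dd
    simp only [pderiv_pull, map_sum, map_mul, map_pow, eval_pull, map_ofNat, Finset.mul_sum]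
    rw [Finset.sum_comm]
    refine Finset.sum_congr rfl fun j _ => Finset.sum_congr rfl fun i _ => ?_
    ring
  rw [h1]
  simp only [dd_lin]
  unfold dd
  refine Finset.sum_congr rfl fun j _ => ?_
  ring

/-- the derivative of `phi` is surjective off the three lines -/
theorem exists_dir {lam mu : ℂ} {v : V} (hv : ∀ i, eval v (lin lam mu i) ≠ 0) (u₀ : V) :
    ∃ u : V, (fun j => 3 * eval v (lin lam mu j) ^ 2 * eval u (lin lam mu j)) = u₀ := by
  obtain ⟨u, hu⟩ := exists_lin lam mu (fun j => u₀ j / (3 * eval v (lin lam mu j) ^ 2))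
  refine ⟨u, funext fun j => ?_⟩
  have h := hv j
  rw [hu j]
  field_simp

theorem exists_dd_ne {a : R} {v : V} (h : ∃ i, eval v (pderiv i a) ≠ 0) : ∃ u, dd a v u ≠ 0 := by
  obtain ⟨i, hi⟩ := h
  refine ⟨Pi.single i 1, ?_⟩
  unfold dd
  rw [Finset.sum_eq_single i]
  · simpa using hi
  · intro j _ hj
    rw [Pi.single_eq_of_ne hj, zero_mul]
  · intro h
    exact absurd (Finset.mem_univ _) h

theorem exists_pderiv_ne {a : R} {v u : V} (h : dd a v u ≠ 0) :
    ∃ i, eval v (pderiv i a) ≠ 0 := by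
  by_contra hc
  push Not at hc
  apply h
  unfold dd
  exact Finset.sum_eq_zero fun i _ => by rw [hc i, mul_zero]

theorem pull_grad {lam mu : ℂ} {F : R} {v : V} (hv : ∀ i, eval v (lin lam mu i) ≠ 0)
    (h : ∃ i, eval (phi lam mu v) (pderiv i F) ≠ 0) :
    ∃ i, eval v (pderiv i (pull lam mu F)) ≠ 0 := by
  obtain ⟨u₀, hu₀⟩ := exists_dd_ne h
  obtain ⟨u, hu⟩ := exists_dir hv u₀
  apply exists_pderiv_ne (u := u)
  rw [dd_pull, hu]
  exact hu₀

theorem CuspT.pull {lam mu : ℂ} {F : R} {v : V} (hv : ∀ i, eval v (lin lam mu i) ≠ 0)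
    (h : CuspT F (phi lam mu v)) : CuspT (_root_.Pool.Agent.Helper16.Cusp.pull lam mu F) v := by
  obtain ⟨a, b, α, β, γ, hF, ha, hb, hα, hγ, ⟨u, hu1, hu2⟩, w, hw⟩ := h
  obtain ⟨u', hu'⟩ := exists_dir hv u
  obtain ⟨w', hw'⟩ := exists_dir hv w
  refine ⟨Cusp.pull lam mu a, Cusp.pull lam mu b, Cusp.pull lam mu α, Cusp.pull lam mu β,
    Cusp.pull lam mu γ, ?_, ?_, ?_, ?_, ?_, ⟨u', ?_, ?_⟩, w', ?_⟩
  · rw [hF]
    simp only [pull_add, pull_mul, pull_pow]
  · rw [eval_pull]; exact ha
  · rw [eval_pull]; exact hb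
  · rw [eval_pull]; exact hα
  · rw [eval_pull]; exact hγ
  · rw [dd_pull, hu']; exact hu1
  · rw [dd_pull, hu']; exact hu2
  · rw [dd_pull, hw']; exact hw

theorem TanT.pull {lam mu : ℂ} {F ℓ : R} {v : V} (hv : ∀ i, eval v (lin lam mu i) ≠ 0)
    (h : TanT F ℓ (phi lam mu v)) :
    TanT (_root_.Pool.Agent.Helper16.Cusp.pull lam mu F)
      (_root_.Pool.Agent.Helper16.Cusp.pull lam mu ℓ) v := by
  obtain ⟨α, b, β, hF, hℓ, hb, hα, hβ, u, hu1, hu2⟩ := h
  obtain ⟨u', hu'⟩ := exists_dir hv u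
  refine ⟨Cusp.pull lam mu α, Cusp.pull lam mu b, Cusp.pull lam mu β, ?_, ?_, ?_, ?_, ?_,
    u', ?_, ?_⟩
  · rw [hF]
    simp only [pull_add, pull_mul, pull_pow]
  · rw [eval_pull]; exact hℓ
  · rw [eval_pull]; exact hb
  · rw [eval_pull]; exact hα
  · rw [eval_pull]; exact hβ
  · rw [dd_pull, hu']; exact hu1
  · rw [dd_pull, hu']; exact hu2

theorem dd_X (v u : V) (j : Fin 3) : dd (X j) v u = u j := by
  unfold dd
  rw [Finset.sum_eq_single j]
  · rw [pderiv_X]
    simp
  · intro i _ hi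
    rw [pderiv_X, Pi.single_eq_of_ne (Ne.symm hi)]
    simp
  · intro h
    exact absurd (Finset.mem_univ _) h

theorem TanT.fold {lam mu : ℂ} {F : R} {v : V} {j : Fin 3} (hj : eval v (lin lam mu j) = 0)
    (hv : ∀ i, i ≠ j → eval v (lin lam mu i) ≠ 0) (h : TanT F (X j) (phi lam mu v)) :
    CuspT (_root_.Pool.Agent.Helper16.Cusp.pull lam mu F) v := by
  obtain ⟨α, b, β, hF, hℓ, hb, hα, hβ, u₀, hu1, hu2⟩ := h
  rw [dd_X] at hu1
  obtain ⟨u, hu⟩ := exists_lin lam mu (Pi.single j 1)
  obtain ⟨w, hw⟩ := exists_lin lam mu (fun i => u₀ i / (3 * eval v (lin lam mu i) ^ 2))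
  refine ⟨Cusp.pull lam mu b, lin lam mu j, Cusp.pull lam mu β, 0, Cusp.pull lam mu α,
    ?_, ?_, hj, ?_, ?_, ⟨u, ?_, ?_⟩, w, ?_⟩
  · rw [hF, pull_add, pull_mul, pull_mul, pull_pow, pull_X]
    ring
  · rw [eval_pull]; exact hb
  · rw [eval_pull]; exact hβ
  · rw [eval_pull]; exact hα
  · rw [dd_pull]
    have : (fun i => 3 * eval v (lin lam mu i) ^ 2 * eval u (lin lam mu i)) = 0 := by
      funext i
      rw [hu i]
      by_cases hij : i = j
      · subst hij
        rw [hj]
        simp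
      · rw [Pi.single_eq_of_ne hij, mul_zero]
        rfl
    rw [this]
    unfold dd
    simp
  · rw [dd_lin, hu j, Pi.single_eq_same]
    exact one_ne_zero
  · rw [dd_pull]
    have : (fun i => 3 * eval v (lin lam mu i) ^ 2 * eval w (lin lam mu i)) = u₀ := by
      funext i
      rw [hw i]
      by_cases hij : i = j
      · subst hij
        rw [hj, hu1]
        simp
      · have := hv i hij
        field_simp
    rw [this]
    exact hu2

theorem TanT.factor {F ℓ m : R} {v : V} (h : TanT F (ℓ * m) v) (hℓ : eval v ℓ = 0)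
    (hm : eval v m ≠ 0) : TanT F ℓ v := by
  obtain ⟨α, b, β, hF, hℓm, hb, hα, hβ, u, hu1, hu2⟩ := h
  refine ⟨m * α, b, β, ?_, hℓ, hb, ?_, hβ, u, ?_, hu2⟩
  · rw [hF]; ring
  · rw [map_mul]; exact mul_ne_zero hm hα
  · have h1 : dd (ℓ * m) v u = eval v m * dd ℓ v u := by
      unfold dd
      rw [Finset.mul_sum]
      refine Finset.sum_congr rfl fun i _ => ?_
      rw [Derivation.leibniz, smul_eq_mul, smul_eq_mul, map_add, map_mul, map_mul, hℓ]
      ring
    rw [h1] at hu1
    exact (mul_eq_zero.1 hu1).resolve_left hm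

end Pool.Agent.Helper16.Cusp
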